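import Pool.Agent.H18.HIT.Targets

/-!
# The jets of the orbit closure at `z` and at `P`
-/

open MvPolynomial
open Pool.Agent.H12.ZD (pmap v O Res DenseOrbit NoInv)
open Pool.Agent.H18.HIT

namespace Pool.Agent.H16.HIT

section

variable {N : ℕ} {k : Type} [Field k]

/-- the map on jets induced by `G` -/
noncomputable def psi (G : Tup N k) (z x : Fin N → k) (l : ℕ) :
    (Po N k ⧸ (van G z ⊔ mx (pmap G x) ^ l)) →ₐ[k] (Po N k ⧸ (van G z ⊔ mx x ^ l)) :=
  Ideal.Quotient.liftₐ (van G z ⊔ mx (pmap G x) ^ l)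
    ((Ideal.Quotient.mkₐ k (van G z ⊔ mx x ^ l)).comp (aeval G : Po N k →ₐ[k] Po N k))
    (fun a ha => by
      have h : (Ideal.Quotient.mk (van G z ⊔ mx x ^ l)) (aeval G a) = 0 :=
        Ideal.Quotient.eq_zero_iff_mem.2 (aeval_mem_sup ha)
      exact h)

theorem psi_mk (G : Tup N k) (z x : Fin N → k) (l : ℕ) (c : Po N k) :
    psi G z x l (Ideal.Quotient.mk _ c) = Ideal.Quotient.mk _ (aeval G c) := rfl

theorem psi_surj (hETL : T_ETL) (G : Tup N k) (z x : Fin N → k) (l : ℕ)
    (hx : eval x (jac G) ≠ 0) : Function.Surjective (psi G z x l) := by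
  intro y
  obtain ⟨q, rfl⟩ := Ideal.Quotient.mk_surjective y
  obtain ⟨c, hc⟩ := hETL N k G x hx l q
  refine ⟨Ideal.Quotient.mk _ c, ?_⟩
  rw [psi_mk]
  refine (Ideal.Quotient.eq.2 ?_)
  have h1 : q - aeval G c ∈ van G z ⊔ mx x ^ l := Ideal.mem_sup_right hc
  have h2 := Submodule.neg_mem _ h1
  rwa [neg_sub] at h2

theorem dl_le (hETL : T_ETL) (hFIN : T_FIN) (G : Tup N k) (z x : Fin N → k) (l : ℕ)
    (hx : eval x (jac G) ≠ 0) : dl (van G z) l x ≤ dl (van G z) l (pmap G x) := by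
  have := hFIN N k (van G z) l (pmap G x)
  exact LinearMap.finrank_le_finrank_of_surjective (f := (psi G z x l).toLinearMap)
    (psi_surj hETL G z x l hx)

end

theorem pf_IJP (hETL : T_ETL) (hFIN : T_FIN) (hSEM : T_SEM) : T_IJP := by
  intro N k _ G z P hP hjn hjP hvP l c hc
  -- the dimension does not decrease along the orbit
  have hmono : ∀ n : ℕ, dl (van G z) l z ≤ dl (van G z) l ((pmap G)^[n] z) := by
    intro n
    induction n with
    | zero => exact le_refl _
    | succ n ih =>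
      rw [Function.iterate_succ_apply']
      exact ih.trans (dl_le hETL hFIN G z _ l (hjn n))
  obtain ⟨M, hM, hM'⟩ := hSEM N k (van G z) l P
  have hex : ∃ n : ℕ, eval ((pmap G)^[n] z) M ≠ 0 := by
    by_contra hno
    push Not at hno
    exact hM (hvP M hno)
  obtain ⟨n, hn⟩ := hex
  have hle : dl (van G z) l z ≤ dl (van G z) l P := (hmono n).trans (hM' _ hn)
  subst hP
  have hfin1 := hFIN N k (van G (pmap G P)) l (pmap G P)
  have hfin2 := hFIN N k (van G (pmap G P)) l P
  have hsurj := psi_surj hETL G (pmap G P) P l hjP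
  have heq : Module.finrank k (Po N k ⧸ (van G (pmap G P) ⊔ mx (pmap G P) ^ l)) =
      Module.finrank k (Po N k ⧸ (van G (pmap G P) ⊔ mx P ^ l)) :=
    le_antisymm hle (dl_le hETL hFIN G (pmap G P) P l hjP)
  have hinj : Function.Injective (psi G (pmap G P) P l) :=
    (LinearMap.injective_iff_surjective_of_finrank_eq_finrank
      (f := (psi G (pmap G P) P l).toLinearMap) heq).2 hsurj
  have h0 : psi G (pmap G P) P l (Ideal.Quotient.mk _ c) = 0 := by
    rw [psi_mk]
    exact Ideal.Quotient.eq_zero_iff_mem.2 hc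
  have h1 : (Ideal.Quotient.mk (van G (pmap G P) ⊔ mx (pmap G P) ^ l)) c = 0 :=
    hinj (h0.trans (map_zero _).symm)
  exact Ideal.Quotient.eq_zero_iff_mem.1 h1

end Pool.Agent.H16.HIT
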