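import Pool.Agent.H18.HIT.Targets

/-!
# Semicontinuity of the dimension of the jets of a closed set
-/

open MvPolynomial
open Pool.Agent.H12.ZD (pmap v O Res DenseOrbit NoInv)
open Pool.Agent.H18.HIT

namespace Pool.Agent.H16.HIT

section

variable {N : ℕ} {k : Type} [Field k]

/-- translation by `x` -/
noncomputable def trn (x : Fin N → k) : Tup N k := fun i => X i + C (x i)

theorem pmap_trn (x : Fin N → k) : pmap (trn x) 0 = x := by
  funext i
  change eval 0 (X i + C (x i)) = x i
  rw [map_add, eval_X, eval_C, Pi.zero_apply, zero_add]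

theorem pmap_trn_neg (x : Fin N → k) : pmap (trn (-x)) x = 0 := by
  funext i
  change eval x (X i + C ((-x) i)) = 0
  rw [map_add, eval_X, eval_C, Pi.neg_apply, add_neg_cancel]

theorem comp_trn (x : Fin N → k) (q : Po N k) :
    aeval (trn (-x)) (aeval (trn x) q : Po N k) = q := by
  rw [← aeval_comp]
  have h : comp (trn x) (trn (-x)) = fun i => X i := by
    funext i
    change aeval (trn (-x)) (X i + C (x i)) = X i
    rw [map_add, aeval_X, aeval_C]
    change X i + C ((-x) i) + algebraMap k (Po N k) (x i) = X i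
    rw [algebraMap_eq, Pi.neg_apply, C_neg]
    ring
  rw [h]
  exact aeval_X_left_apply q

theorem trn_surj (x : Fin N → k) (q : Po N k) :
    aeval (trn x) (aeval (trn (-x)) q : Po N k) = q := by
  have h := comp_trn (-x) q
  rwa [neg_neg] at h

theorem trn_mem {x : Fin N → k} {q : Po N k} {l : ℕ} :
    (aeval (trn x) q : Po N k) ∈ mx (0 : Fin N → k) ^ l ↔ q ∈ mx x ^ l := by
  constructor
  · intro h
    have h1 : (aeval (trn x) q : Po N k) ∈ mx (pmap (trn (-x)) x) ^ l := by
      rw [pmap_trn_neg]
      exact h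
    have h2 := aeval_mem_mx_pow h1
    rwa [comp_trn] at h2
  · intro h
    have h1 : q ∈ mx (pmap (trn x) 0) ^ l := by
      rw [pmap_trn]
      exact h
    exact aeval_mem_mx_pow h1

/-- the jets at the origin -/
abbrev Jt (N : ℕ) (k : Type) [Field k] (l : ℕ) : Type := Po N k ⧸ (mx (0 : Fin N → k) ^ l)

/-- the jet of `q` at `x` -/
noncomputable def jet (l : ℕ) (x : Fin N → k) : Po N k →ₗ[k] Jt N k l :=
  (Ideal.Quotient.mkₐ k (mx (0 : Fin N → k) ^ l)).toLinearMap ∘ₗ
    (aeval (trn x) : Po N k →ₐ[k] Po N k).toLinearMap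

theorem jet_apply (l : ℕ) (x : Fin N → k) (q : Po N k) :
    jet l x q = Ideal.Quotient.mk (mx (0 : Fin N → k) ^ l) (aeval (trn x) q) := rfl

theorem jet_surj (l : ℕ) (x : Fin N → k) : Function.Surjective (jet (k := k) (N := N) l x) := by
  intro y
  obtain ⟨q, rfl⟩ := Ideal.Quotient.mk_surjective y
  refine ⟨aeval (trn (-x)) q, ?_⟩
  rw [jet_apply, trn_surj]

theorem jet_eq_zero {l : ℕ} {x : Fin N → k} {q : Po N k} : jet l x q = 0 ↔ q ∈ mx x ^ l := by
  rw [jet_apply, Ideal.Quotient.eq_zero_iff_mem, trn_mem]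

/-- the jets of the elements of `I` -/
noncomputable def VV (I : Ideal (Po N k)) (l : ℕ) (x : Fin N → k) : Submodule k (Jt N k l) :=
  Submodule.map (jet l x) (I.restrictScalars k)

theorem dl_eq (I : Ideal (Po N k)) (l : ℕ) (x : Fin N → k) :
    dl I l x = Module.finrank k (Jt N k l ⧸ VV I l x) := by
  have hs1 : Function.Surjective ((Ideal.Quotient.mkₐ k (I ⊔ mx x ^ l)).toLinearMap) :=
    Ideal.Quotient.mk_surjective
  have hs2 : Function.Surjective ((VV I l x).mkQ ∘ₗ jet l x) :=
    (Submodule.mkQ_surjective _).comp (jet_surj l x)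
  have hker : LinearMap.ker ((Ideal.Quotient.mkₐ k (I ⊔ mx x ^ l)).toLinearMap) =
      LinearMap.ker ((VV I l x).mkQ ∘ₗ jet l x) := by
    ext q
    rw [LinearMap.mem_ker, LinearMap.mem_ker, LinearMap.comp_apply, Submodule.mkQ_apply,
      Submodule.Quotient.mk_eq_zero]
    change Ideal.Quotient.mk (I ⊔ mx x ^ l) q = 0 ↔ _
    rw [Ideal.Quotient.eq_zero_iff_mem]
    constructor
    · intro hq
      obtain ⟨a, ha, b, hb, rfl⟩ := Submodule.mem_sup.mp hq
      rw [map_add, jet_eq_zero.2 hb, add_zero]
      exact Submodule.mem_map_of_mem ha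
    · rintro ⟨a, ha, hq⟩
      have h1 : jet l x (q - a) = 0 := by rw [map_sub, hq, sub_self]
      have h2 := jet_eq_zero.1 h1
      have h3 : q = a + (q - a) := by ring
      rw [h3]
      exact Submodule.add_mem_sup ha h2
  have e1 := (((Ideal.Quotient.mkₐ k (I ⊔ mx x ^ l)).toLinearMap).quotKerEquivOfSurjective
    hs1).finrank_eq
  have e2 := (((VV I l x).mkQ ∘ₗ jet l x).quotKerEquivOfSurjective hs2).finrank_eq
  rw [← e2, ← hker, e1]
  rfl

/-- the polynomial with value `f (jet l x c)` at `x` -/
noncomputable def Fc (l : ℕ) (f : Jt N k l →ₗ[k] k) (c : Po N k) : Po N k :=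
  ∑ m ∈ ((aeval (fun i => X i + C (X i)) c : MvPolynomial (Fin N) (Po N k))).support,
    C (f (Ideal.Quotient.mk _ (monomial m (1 : k)))) *
      coeff m ((aeval (fun i => X i + C (X i)) c : MvPolynomial (Fin N) (Po N k)))

theorem map_eval_T (x : Fin N → k) (c : Po N k) :
    MvPolynomial.map (eval x) ((aeval (fun i => X i + C (X i)) c :
      MvPolynomial (Fin N) (Po N k))) = aeval (trn x) c := by
  induction c using MvPolynomial.induction_on with
  | C a =>
    rw [aeval_C, aeval_C]
    change MvPolynomial.map (eval x) (C (C a)) = C a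
    rw [map_C, eval_C]
  | add a b ha hb => rw [map_add, map_add, map_add, ha, hb]
  | mul_X a i ha =>
    rw [map_mul, map_mul, map_mul, ha, aeval_X, aeval_X, map_add, map_X, map_C, eval_X]
    rfl

theorem eval_Fc (l : ℕ) (f : Jt N k l →ₗ[k] k) (c : Po N k) (x : Fin N → k) :
    eval x (Fc l f c) = f (jet l x c) := by
  rw [jet_apply, ← map_eval_T]
  set T : MvPolynomial (Fin N) (Po N k) := aeval (fun i => X i + C (X i)) c with hT
  have h1 : MvPolynomial.map (eval x) T =
      ∑ m ∈ T.support, (eval x (coeff m T)) • (monomial m (1 : k)) := by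
    conv_lhs => rw [T.as_sum]
    rw [map_sum]
    refine Finset.sum_congr rfl fun m _ => ?_
    rw [map_monomial, smul_monomial, smul_eq_mul, mul_one]
  rw [h1, map_sum, map_sum]
  unfold Fc
  rw [map_sum]
  refine Finset.sum_congr rfl fun m _ => ?_
  rw [map_mul, eval_C]
  have h2 : (Ideal.Quotient.mk (mx (0 : Fin N → k) ^ l))
      ((eval x (coeff m T)) • (monomial m (1 : k))) =
      (eval x (coeff m T)) • (Ideal.Quotient.mk (mx (0 : Fin N → k) ^ l) (monomial m (1 : k))) :=
    rfl
  rw [h2, map_smul, smul_eq_mul, mul_comm]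

end

theorem pf_SEM (hFIN : T_FIN) : T_SEM := by
  intro N k _ I l x₀
  have hfin : Module.Finite k (Jt N k l) := by
    have h := hFIN N k ⊥ l 0
    rw [bot_sup_eq] at h
    exact h
  -- a basis of the jets of `I` at `x₀`
  set r := Module.finrank k (VV I l x₀) with hr
  let b : Module.Basis (Fin r) k (VV I l x₀) := Module.finBasis k (VV I l x₀)
  have hc : ∀ i : Fin r, ∃ c ∈ I, jet l x₀ c = (b i : Jt N k l) := fun i => (b i).2
  choose c hcI hcj using hc
  obtain ⟨g, hg⟩ := LinearMap.exists_leftInverse_of_injective (VV I l x₀).subtype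
    (Submodule.ker_subtype _)
  let g' : Jt N k l →ₗ[k] (Fin r → k) := b.equivFun.toLinearMap ∘ₗ g
  have hg' : ∀ i, g' (b i : Jt N k l) = Pi.single i 1 := by
    intro i
    have h1 : g (b i : Jt N k l) = b i := LinearMap.congr_fun hg (b i)
    change b.equivFun (g (b i : Jt N k l)) = _
    rw [h1]
    funext j
    rw [Module.Basis.equivFun_self, Pi.single_apply]
    by_cases hij : i = j
    · rw [if_pos hij, if_pos hij.symm]
    · rw [if_neg hij, if_neg (fun h => hij h.symm)]
  set M : Po N k := Matrix.det (Matrix.of fun i j =>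
    Fc l ((LinearMap.proj j : (Fin r → k) →ₗ[k] k) ∘ₗ g') (c i)) with hM
  have hMx : ∀ x, eval x M = Matrix.det (Matrix.of fun i j => g' (jet l x (c i)) j) := by
    intro x
    rw [hM, RingHom.map_det]
    congr 1
    ext i j
    change eval x (Fc l ((LinearMap.proj j : (Fin r → k) →ₗ[k] k) ∘ₗ g') (c i)) = _
    rw [eval_Fc]
    rfl
  refine ⟨M, ?_, ?_⟩
  · rw [hMx]
    have h1 : (Matrix.of fun i j => g' (jet l x₀ (c i)) j) = (1 : Matrix (Fin r) (Fin r) k) := by
      ext i j
      change g' (jet l x₀ (c i)) j = _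
      rw [hcj, hg', Pi.single_apply, Matrix.one_apply]
      by_cases hij : i = j
      · rw [if_pos hij.symm, if_pos hij]
      · rw [if_neg (fun h => hij h.symm), if_neg hij]
    rw [h1, Matrix.det_one]
    exact one_ne_zero
  · intro x hx
    rw [hMx] at hx
    have hrows := Matrix.linearIndependent_rows_of_det_ne_zero hx
    have hind : LinearIndependent k (fun i => jet l x (c i)) :=
      LinearIndependent.of_comp g' hrows
    have hind' : LinearIndependent k (fun i : Fin r =>
        (⟨jet l x (c i), Submodule.mem_map_of_mem (hcI i)⟩ : VV I l x)) := by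
      apply LinearIndependent.of_comp (VV I l x).subtype
      exact hind
    have hcard := hind'.fintype_card_le_finrank
    rw [Fintype.card_fin] at hcard
    have e1 := Submodule.finrank_quotient_add_finrank (VV I l x)
    have e2 := Submodule.finrank_quotient_add_finrank (VV I l x₀)
    rw [dl_eq, dl_eq]
    omega

end Pool.Agent.H16.HIT
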