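import Pool.Agent.H18.HIT.Targets

/-!
# Total invariance of the orbit closure
-/

open MvPolynomial
open Pool.Agent.H12.ZD (pmap v O Res DenseOrbit NoInv)
open Pool.Agent.H18.HIT

namespace Pool.Agent.H16.HIT

theorem pf_STR (hETL : T_ETL) (hIJP : T_IJP) (hGLT : T_GLT) (hVDM : T_VDM) (hKRU : T_KRU)
    (hSPT : T_SPT) : T_STR := by
  intro N k _ _ G z P S hP hjn hjP hvP hcan hS
  obtain ⟨θ, hθ⟩ := hSPT N k S
  refine ⟨θ, fun c hc i => ?_⟩
  have hIJ := hIJP N k G z P hP hjn hjP hvP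
  have hG : ∀ a : Fin S.card, (∀ (l : ℕ) (c : Po N k),
      aeval G c ∈ van G z ⊔ mx ((S.equivFin.symm a : Fin N → k)) ^ l →
        c ∈ van G z ⊔ mx z ^ l) ∧
      eval ((S.equivFin.symm a : Fin N → k)) (jac G) ≠ 0 ∧
      pmap G ((S.equivFin.symm a : Fin N → k)) = z := by
    intro a
    obtain ⟨σ, h1, h2, h3⟩ := hS (S.equivFin.symm a : Fin N → k) (S.equivFin.symm a).2
    obtain ⟨g1, g2, g3, g4⟩ := hGLT N k G z P (S.equivFin.symm a : Fin N → k) σ h1 h2 h3 hIJ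
    refine ⟨g1, ?_, g4 hP⟩
    intro h0
    rw [← g3] at h0
    exact hjP ((map_eq_zero σ).1 h0)
  have hall := hVDM N k G z S.card (fun a => (S.equivFin.symm a : Fin N → k)) θ
    (fun a => (hG a).2.2) (fun a b hab => by
      have h1 := hθ _ (S.equivFin.symm a).2 _ (S.equivFin.symm b).2 hab
      exact S.equivFin.symm.injective (Subtype.ext h1))
    (fun a l q => hETL N k G _ (hG a).2.1 l q) (fun a => (hG a).1) c hc i
  obtain ⟨m, hm, hmc⟩ := hKRU N k (van G z) z (c i) hall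
  refine hcan (1 - m) (c i) hmc ?_
  rw [map_sub, map_one, mem_mx.1 hm, sub_zero]
  exact one_ne_zero

end Pool.Agent.H16.HIT
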